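import Pool.Agent.H487.GA.Stm
import Pool.Agent.H548.EF.Spx
import Pool.Agent.H277.ED.Spc

set_option autoImplicit false

/-!
Project GA of helper487, `S_GAPL`: the gaps between the real zeros of `f^(k)` near a good point to
the precision `o(1/k)`, from the half circle integral to constant precision.
-/

open Finset Complex Filter Topology Metric Set MeasureTheory

namespace Pool.Agent.H364.GA

open Pool.Agent.H477.Jen
open Pool.Agent.H477.E
open Pool.Agent.H487.GA

/-- comparison of two logarithmic derivatives -/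
theorem logder_comp {P F : ℂ → ℂ} (hP : Differentiable ℂ P) (hFd : Differentiable ℂ F) {A c0 : ℂ}
    {ρ e : ℝ} (hρ : 0 < ρ) (he2 : e ≤ 1 / 2) (hA : A ≠ 0)
    (hF : ∀ c, ‖c - c0‖ ≤ 2 * ρ → F c ≠ 0)
    (hb : ∀ c, ‖c - c0‖ ≤ 2 * ρ → ‖P c - A * F c‖ ≤ e * (‖A‖ * ‖F c‖)) {c : ℂ}
    (hc : ‖c - c0‖ ≤ ρ) :
    ‖deriv P c / P c - deriv F c / F c‖ ≤ 2 * e / ρ := by
  have hQ1 : ∀ z, ‖z - c0‖ ≤ 2 * ρ → ‖P z / (A * F z) - 1‖ ≤ e := by
    intro z hz
    have h1 : A * F z ≠ 0 := mul_ne_zero hA (hF z hz)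
    have h2 : P z / (A * F z) - 1 = (P z - A * F z) / (A * F z) := by
      rw [sub_div, div_self h1]
    rw [h2, norm_div, norm_mul, div_le_iff₀ (by
      have := norm_pos_iff.2 hA
      have := norm_pos_iff.2 (hF z hz)
      positivity)]
    exact hb z hz
  have hin : ∀ z ∈ closedBall c ρ, ‖z - c0‖ ≤ 2 * ρ := by
    intro z hz
    rw [mem_closedBall, dist_eq_norm] at hz
    have h1 : z - c0 = (z - c) + (c - c0) := by ring
    rw [h1]
    refine (norm_add_le _ _).trans ?_
    linarith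
  have hdiff : ∀ z, ‖z - c0‖ ≤ 2 * ρ → DifferentiableAt ℂ (fun z => P z / (A * F z) - 1) z := by
    intro z hz
    exact ((hP z).div ((hFd z).const_mul A) (mul_ne_zero hA (hF z hz))).sub_const 1
  have hcl : DiffContOnCl ℂ (fun z => P z / (A * F z) - 1) (ball c ρ) := by
    have h1 : DifferentiableOn ℂ (fun z => P z / (A * F z) - 1) (closedBall c ρ) := fun z hz =>
      (hdiff z (hin z hz)).differentiableWithinAt
    exact (h1.mono closure_ball_subset_closedBall).diffContOnCl
  have hder := norm_deriv_le_of_forall_mem_sphere_norm_le hρ hcl (C := e) (fun z hz =>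
    hQ1 z (hin z (sphere_subset_closedBall hz)))
  have hc2 : ‖c - c0‖ ≤ 2 * ρ := by linarith
  have hFc := hF c hc2
  have hAF : A * F c ≠ 0 := mul_ne_zero hA hFc
  have hQc := hQ1 c hc2
  have hQn : 1 / 2 ≤ ‖P c / (A * F c)‖ := by
    have h1 := norm_sub_norm_le (1 : ℂ) (1 - P c / (A * F c))
    have h2 : (1 : ℂ) - (1 - P c / (A * F c)) = P c / (A * F c) := by ring
    rw [h2, norm_one, norm_sub_rev] at h1
    linarith
  have hPc : P c ≠ 0 := by
    intro h0
    rw [h0, zero_div, norm_zero] at hQn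
    linarith
  have h3 : HasDerivAt (fun z => P z / (A * F z) - 1)
      ((deriv P c * (A * F c) - P c * (A * deriv F c)) / (A * F c) ^ 2) c :=
    (((hP c).hasDerivAt.div ((hFd c).hasDerivAt.const_mul A) hAF)).sub_const 1
  rw [h3.deriv] at hder
  have h4 : deriv P c / P c - deriv F c / F c =
      ((deriv P c * (A * F c) - P c * (A * deriv F c)) / (A * F c) ^ 2) / (P c / (A * F c)) := by
    field_simp
  rw [h4, norm_div, div_le_iff₀ (by linarith)]
  have he : 0 ≤ e := (norm_nonneg _).trans hQc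
  have h5 : e / ρ ≤ 2 * e / ρ * ‖P c / (A * F c)‖ := by
    have h6 : 0 ≤ 2 * e / ρ := by positivity
    calc e / ρ = 2 * e / ρ * (1 / 2) := by ring
      _ ≤ _ := mul_le_mul_of_nonneg_left hQn h6
  exact hder.trans h5

/-- the logarithmic derivative varies slowly -/
theorem logder_slow {f : ℂ → ℂ} (hf : Differentiable ℂ f) {z0 a : ℂ} {r J : ℝ} (hr : 0 < r)
    (hb : ∀ z : ℂ, ‖z - z0‖ ≤ 2 / 5 * r → f z ≠ 0 ∧ ‖deriv f z / f z - a‖ ≤ J / r) {z : ℂ}
    (hz : ‖z - z0‖ ≤ r / 16) :
    ‖deriv f z / f z - deriv f z0 / f z0‖ ≤ 4 * J / r ^ 2 * ‖z - z0‖ := by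
  have hd : ∀ z : ℂ, ‖z - z0‖ ≤ 2 / 5 * r → DifferentiableAt ℂ (fun z => deriv f z / f z - a) z :=
    fun z hz => (((hf.analyticAt z).deriv.differentiableAt).div (hf z) (hb z hz).1).sub_const a
  have hder : ∀ z : ℂ, ‖z - z0‖ ≤ r / 16 →
      ‖deriv (fun z => deriv f z / f z - a) z‖ ≤ 4 * J / r ^ 2 := by
    intro z hz
    have hin : ∀ v ∈ closedBall z (r / 4), ‖v - z0‖ ≤ 2 / 5 * r := by
      intro v hv
      rw [mem_closedBall, dist_eq_norm] at hv
      have h1 : v - z0 = (v - z) + (z - z0) := by ring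
      rw [h1]
      refine (norm_add_le _ _).trans ?_
      linarith
    have hcl : DiffContOnCl ℂ (fun z => deriv f z / f z - a) (ball z (r / 4)) := by
      have h1 : DifferentiableOn ℂ (fun z => deriv f z / f z - a) (closedBall z (r / 4)) :=
        fun v hv => (hd v (hin v hv)).differentiableWithinAt
      exact (h1.mono closure_ball_subset_closedBall).diffContOnCl
    have h2 := norm_deriv_le_of_forall_mem_sphere_norm_le (show 0 < r / 4 by positivity) hcl
      (C := J / r) (fun v hv => (hb v (hin v (sphere_subset_closedBall hv))).2)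
    refine h2.trans (le_of_eq ?_)
    field_simp
  have h3 := (convex_closedBall z0 (r / 16)).norm_image_sub_le_of_norm_deriv_le
    (f := fun z => deriv f z / f z - a) (C := 4 * J / r ^ 2) (x := z0) (y := z)
    (fun x hx => by
      rw [mem_closedBall, dist_eq_norm] at hx
      exact hd x (by linarith))
    (fun x hx => by
      rw [mem_closedBall, dist_eq_norm] at hx
      exact hder x hx)
    (mem_closedBall_self (by positivity)) (by rw [mem_closedBall, dist_eq_norm]; exact hz)
  have h4 : (deriv f z / f z - a) - (deriv f z0 / f z0 - a) =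
      deriv f z / f z - deriv f z0 / f z0 := by ring
  rw [← h4]
  exact h3

/-- the final computation -/
theorem gap_calc {J ε κ k lam r U D : ℝ} (hε : 0 < ε) (hJ : 0 < J) (hr : 0 < r) (hlam : 0 < lam)
    (hlr : lam * r = k) (hκ1 : κ ≤ 1) (hκ2 : κ ≤ ε / 2) (hU : |r * U| ≤ J)
    (hk : J + 1 + 2 * (J + 1) ^ 2 / ε ≤ k) (hD : 0 < D)
    (h1 : (lam + U - κ / r) * D ≤ Real.pi) (h2 : Real.pi ≤ (lam + U + κ / r) * D) :
    |k * (D * lam / Real.pi - 1) + r * U| ≤ ε := by
  have hpi := Real.pi_pos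
  obtain ⟨δ, hδ⟩ : ∃ δ : ℝ, δ = (Real.pi / D - lam) * r := ⟨_, rfl⟩
  have hpD : Real.pi / D = lam + δ / r := by
    rw [hδ]
    field_simp
    ring
  have hq : 0 < 2 * (J + 1) ^ 2 / ε := by positivity
  have h3 : lam + U - κ / r ≤ Real.pi / D := by
    rw [le_div_iff₀ hD]
    exact h1
  have h4 : Real.pi / D ≤ lam + U + κ / r := by
    rw [div_le_iff₀ hD]
    exact h2
  rw [hpD] at h3 h4
  have h5 : r * U - κ ≤ δ := by
    have h6 : (U - κ / r) * r ≤ δ / r * r := mul_le_mul_of_nonneg_right (by linarith) hr.le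
    have h7 : (U - κ / r) * r = r * U - κ := by field_simp
    have h8 : δ / r * r = δ := by field_simp
    linarith
  have h6 : δ ≤ r * U + κ := by
    have h6 : δ / r * r ≤ (U + κ / r) * r := mul_le_mul_of_nonneg_right (by linarith) hr.le
    have h7 : (U + κ / r) * r = r * U + κ := by field_simp
    have h8 : δ / r * r = δ := by field_simp
    linarith
  have hUJ := abs_le.1 hU
  have hδ1 : -(J + 1) ≤ δ := by linarith [hUJ.1]
  have hδ2 : δ ≤ J + 1 := by linarith [hUJ.2]
  have hkd : 2 * (J + 1) ^ 2 / ε ≤ k + δ := by linarith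
  have hkd0 : 0 < k + δ := lt_of_lt_of_le hq hkd
  have hDl : D * lam / Real.pi = k / (k + δ) := by
    have h7 : Real.pi = (lam + δ / r) * D := by
      rw [← hpD]
      field_simp
    have h8 : lam + δ / r = (k + δ) / r := by
      rw [← hlr]
      field_simp
    rw [h7, h8, ← hlr]
    have h9 : lam * r + δ ≠ 0 := by rw [hlr]; exact hkd0.ne'
    field_simp
  rw [hDl]
  have h9 : k * (k / (k + δ) - 1) + r * U = (r * U - δ) + δ ^ 2 / (k + δ) := by
    field_simp
    ring
  rw [h9]
  have h10 : δ ^ 2 / (k + δ) ≤ ε / 2 := by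
    rw [div_le_iff₀ hkd0]
    have h11 : δ ^ 2 ≤ (J + 1) ^ 2 := by
      rw [sq_le_sq, abs_of_pos (by linarith : 0 < J + 1), abs_le]
      exact ⟨hδ1, hδ2⟩
    have h12 : 2 * (J + 1) ^ 2 ≤ (k + δ) * ε := by
      rw [div_le_iff₀ hε] at hkd
      exact hkd
    linarith
  have h11 : 0 ≤ δ ^ 2 / (k + δ) := by positivity
  rw [abs_le]
  constructor <;> linarith

/-- **S_GAPL.** -/
theorem gapl_proof : S_PREC → S_GAPL := by
  intro hprec J ε hJ hε
  obtain ⟨e, hedef⟩ : ∃ e : ℝ, e = min (ε / 128) (1 / 64) := ⟨_, rfl⟩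
  have he0 : 0 < e := by rw [hedef]; positivity
  have he1 : e ≤ ε / 128 := by rw [hedef]; exact min_le_left _ _
  have he2 : e ≤ 1 / 64 := by rw [hedef]; exact min_le_right _ _
  obtain ⟨η, hη0, hη1, k1, hk1⟩ := hprec J e hJ he0
  obtain ⟨N, hN⟩ := exists_nat_ge (320 + 160 * J + 320 * J / ε + (J + 1 + 2 * (J + 1) ^ 2 / ε))
  refine ⟨η, hη0, hη1, max k1 N, ?_⟩
  intro f hf hreal k hk lam t hlam hkl hLG hball x y hx hxy hy hx0 hy0 hcons
  have hkN : (N : ℝ) ≤ k := by exact_mod_cast (le_max_right k1 N).trans hk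
  have hJε : 0 < J / ε := by positivity
  have hq1 : 0 < 320 * J / ε := by positivity
  have hq2 : 0 < 2 * (J + 1) ^ 2 / ε := by positivity
  have hk320 : (320 : ℝ) ≤ k := by linarith
  have hkJ : 160 * J ≤ k := by linarith
  have hkJε : 320 * J / ε ≤ k := by linarith
  have hkbig : J + 1 + 2 * (J + 1) ^ 2 / ε ≤ k := by linarith
  have hk0 : (0 : ℝ) < k := by linarith
  obtain ⟨hA, hcomp⟩ := hk1 f hf k ((le_max_left _ _).trans hk) lam t hlam hkl hLG hball
  obtain ⟨r, hrdef⟩ : ∃ r : ℝ, r = k / lam := ⟨_, rfl⟩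
  have hr0 : 0 < r := by rw [hrdef]; positivity
  have hlr : lam * r = k := by rw [hrdef]; field_simp
  have hJr : J * (lam / k) = J / r := by rw [hrdef]; field_simp
  have h20 : 20 / lam = 20 * r / k := by rw [hrdef]; field_simp
  rw [← hrdef] at hcomp hball ⊢
  rw [hJr] at hball
  obtain ⟨u, hu⟩ : ∃ u : ℂ, u = -(I * (r : ℂ)) := ⟨_, rfl⟩
  have huc : (starRingEnd ℂ) u = -u := by
    rw [hu, map_neg, map_mul, conj_I, conj_ofReal]
    ring
  have hun : u ≠ 0 := by
    rw [hu, neg_ne_zero]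
    exact mul_ne_zero I_ne_zero (by exact_mod_cast hr0.ne')
  rw [← hu] at hcomp
  obtain ⟨P, hPdef⟩ : ∃ P : ℂ → ℂ, P = half f u k := ⟨_, rfl⟩
  have hP : Differentiable ℂ P := by rw [hPdef]; exact half_diff hf u k
  rw [← hPdef] at hcomp
  obtain ⟨F, hFdef⟩ : ∃ F : ℂ → ℂ, F = fun c => f (c - I * (r : ℂ)) := ⟨_, rfl⟩
  have hFd : Differentiable ℂ F := by
    rw [hFdef]
    intro c
    exact (hf _).comp c (by fun_prop)
  have hFv : ∀ c, F c = f (c - I * (r : ℂ)) := fun c => by rw [hFdef]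
  have hFder : ∀ c, deriv F c = deriv f (c - I * (r : ℂ)) := fun c => by
    rw [hFdef]
    exact deriv_comp_sub_const f (I * (r : ℂ)) c
  have hsh : ∀ c : ℂ, ‖(c - I * (r : ℂ)) - ((t : ℂ) - I * (r : ℂ))‖ = ‖c - t‖ := fun c => by
    congr 1
    ring
  have hFne : ∀ c : ℂ, ‖c - t‖ ≤ 2 * (r / 16) → F c ≠ 0 := fun c hc => by
    rw [hFv]
    exact (hball _ (by rw [hsh]; linarith)).1
  have hcomp' : ∀ c : ℂ, ‖c - t‖ ≤ 2 * (r / 16) →
      ‖P c - AA k * F c‖ ≤ e * (‖AA k‖ * ‖F c‖) := fun c hc => by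
    rw [hFv]
    exact hcomp c (by linarith)
  have hPne : ∀ c : ℂ, ‖c - t‖ ≤ r / 8 → P c ≠ 0 := by
    intro c hc h0
    have h1 := hcomp c hc
    have h2 := (hball (c - I * (r : ℂ)) (by rw [hsh]; linarith)).1
    rw [h0, zero_sub, norm_neg, norm_mul] at h1
    have h3 : 0 < ‖AA k‖ * ‖f (c - I * (r : ℂ))‖ :=
      mul_pos (norm_pos_iff.2 hA) (norm_pos_iff.2 h2)
    nlinarith
  -- the logarithmic derivative of `P`
  obtain ⟨κ, hκ⟩ : ∃ κ : ℝ, κ = 32 * e + 80 * J / k := ⟨_, rfl⟩
  have hκ0 : 0 ≤ κ := by rw [hκ]; positivity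
  have hJk1 : 80 * J / k ≤ 1 / 2 := by
    rw [div_le_iff₀ hk0]
    linarith
  have hJk2 : 80 * J / k ≤ ε / 4 := by
    rw [div_le_iff₀ hk0]
    rw [div_le_iff₀ hε] at hkJε
    linarith
  have hκ1 : κ ≤ 1 := by rw [hκ]; linarith
  have hκ2 : κ ≤ ε / 2 := by rw [hκ]; linarith
  obtain ⟨U, hU⟩ : ∃ U : ℝ, U = (deriv f ((t : ℂ) - I * (r : ℂ)) /
    f ((t : ℂ) - I * (r : ℂ))).im - lam := ⟨_, rfl⟩
  have hIlam : (I * (lam : ℂ)).im = lam := by simp
  have hUJ : |r * U| ≤ J := by
    have h1 := (hball ((t : ℂ) - I * (r : ℂ)) (by rw [sub_self, norm_zero]; positivity)).2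
    have h2 := (abs_im_le_norm _).trans h1
    rw [sub_im, hIlam, ← hU] at h2
    rw [abs_mul, abs_of_pos hr0]
    rw [le_div_iff₀ hr0] at h2
    linarith
  have h20r : 20 * r / k ≤ r / 16 := by
    rw [div_le_iff₀ hk0]
    nlinarith
  have hlog : ∀ c : ℂ, ‖c - t‖ ≤ 20 * r / k →
      |(deriv P c / P c).im - (lam + U)| ≤ κ / r := by
    intro c hc
    have hc16 : ‖c - t‖ ≤ r / 16 := hc.trans h20r
    have h1 := logder_comp hP hFd (ρ := r / 16) (by positivity) (by linarith : e ≤ 1 / 2) hA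
      hFne hcomp' hc16
    have h2 := logder_slow hf (z0 := (t : ℂ) - I * (r : ℂ)) (a := I * (lam : ℂ)) hr0 hball
      (z := c - I * (r : ℂ)) (by rw [hsh]; exact hc16)
    rw [hsh] at h2
    rw [hFv, hFder] at h1
    have h3 : ‖deriv P c / P c - deriv f ((t : ℂ) - I * (r : ℂ)) / f ((t : ℂ) - I * (r : ℂ))‖ ≤
        κ / r := by
      have h4 : deriv P c / P c - deriv f ((t : ℂ) - I * (r : ℂ)) / f ((t : ℂ) - I * (r : ℂ)) =
          (deriv P c / P c - deriv f (c - I * (r : ℂ)) / f (c - I * (r : ℂ))) +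
          (deriv f (c - I * (r : ℂ)) / f (c - I * (r : ℂ)) -
            deriv f ((t : ℂ) - I * (r : ℂ)) / f ((t : ℂ) - I * (r : ℂ))) := by ring
      rw [h4]
      refine (norm_add_le _ _).trans ((add_le_add h1 h2).trans ?_)
      have h5 : 4 * J / r ^ 2 * ‖c - t‖ ≤ 4 * J / r ^ 2 * (20 * r / k) :=
        mul_le_mul_of_nonneg_left hc (by positivity)
      refine (add_le_add_right h5 _).trans (le_of_eq ?_)
      rw [hκ]
      field_simp
      ring
    have h6 := (abs_im_le_norm _).trans h3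
    rw [sub_im] at h6
    have h7 : (deriv f ((t : ℂ) - I * (r : ℂ)) / f ((t : ℂ) - I * (r : ℂ))).im = lam + U := by
      rw [hU]; ring
    rw [h7] at h6
    exact h6
  -- the zeros of the derivative
  obtain ⟨w, hw, hwk⟩ : ∃ w : ℂ, w ≠ 0 ∧ ∀ z : ℂ,
      z + (-1) ^ k * (starRingEnd ℂ) z = 0 ↔ (w * z).re = 0 := by
    rcases Nat.even_or_odd k with he | ho
    · refine ⟨1, one_ne_zero, fun z => ?_⟩
      rw [he.neg_one_pow, one_mul, one_mul, add_conj]
      norm_cast
      constructor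
      · intro h; linarith
      · intro h; rw [h]; ring
    · refine ⟨I, I_ne_zero, fun z => ?_⟩
      rw [ho.neg_one_pow, neg_one_mul, ← sub_eq_add_neg, sub_conj]
      have : (I * z).re = -z.im := by simp
      rw [this]
      constructor
      · intro h
        have h3 : ((2 * z.im : ℝ) : ℂ) = 0 := by
          rcases mul_eq_zero.1 h with h4 | h4
          · exact h4
          · exact absurd h4 I_ne_zero
        have h4 : 2 * z.im = 0 := by exact_mod_cast h3
        linarith
      · intro h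
        have : z.im = 0 := by linarith
        rw [this]
        simp
  have hfac : (k.factorial : ℂ) ≠ 0 := by exact_mod_cast k.factorial_ne_zero
  have hpi : (2:ℂ) * Real.pi ≠ 0 := by
    have := Real.pi_ne_zero
    exact mul_ne_zero two_ne_zero (by exact_mod_cast this)
  have hcancel : ∀ z : ℂ, 2 * Real.pi * (u ^ k * z / k.factorial) = 0 ↔ z = 0 := by
    intro z
    constructor
    · intro h5
      have h6 := (mul_eq_zero.1 h5).resolve_left hpi
      have h7 := (div_eq_zero_iff.1 h6).resolve_right hfac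
      exact (mul_eq_zero.1 h7).resolve_left (pow_ne_zero _ hun)
    · intro h5
      rw [h5]
      simp
  have hzero : ∀ x : ℝ, iteratedDeriv k f (x:ℂ) = 0 ↔ (w * P x).re = 0 := by
    intro x
    have h4 := half_decomp hf hreal huc k (x:ℂ)
    rw [conj_ofReal, ← hPdef] at h4
    rw [← hwk, ← h4, hcancel]
  have hlowpos : 0 < lam + U - κ / r := by
    have h1 : 0 < (lam + U - κ / r) * r := by
      have h2 : (lam + U - κ / r) * r = k + r * U - κ := by
        rw [← hlr]; field_simp
      rw [h2]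
      have := (abs_le.1 hUJ).1
      linarith
    by_contra hneg
    push Not at hneg
    have := mul_nonpos_of_nonpos_of_nonneg hneg hr0.le
    linarith
  rw [h20] at hx hy
  -- the lower bound
  have hlow : Real.pi ≤ (lam + U + κ / r) * (y - x) := by
    have e8 : (16 * (20 * r / k)) / 8 = 2 * (20 * r / k) := by ring
    have e16 : (16 * (20 * r / k)) / 16 = 20 * r / k := by ring
    refine Pool.Agent.H277.ED.two_zeros hP (r := 16 * (20 * r / k)) (t := t)
      (m := lam + U - κ / r) (M := lam + U + κ / r) hw (by positivity) hlowpos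
      (fun c hc => ?_) (fun c hc => ?_) (x := x) (y := y) (by rw [e16]; exact hx) hxy
      (by rw [e16]; exact hy) ((hzero x).1 hx0) ((hzero y).1 hy0)
    · rw [e8] at hc
      exact hPne c (by linarith)
    · rw [e16] at hc
      have h4 := abs_le.1 (hlog c hc)
      constructor <;> linarith [h4.1, h4.2]
  -- the upper bound
  have hup : (lam + U - κ / r) * (y - x) ≤ Real.pi := by
    by_contra hcon
    push Not at hcon
    obtain ⟨s, hs0, hs1, hs2⟩ : ∃ s : ℝ, 0 < s ∧ 2 * s < y - x ∧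
        Real.pi < (lam + U - κ / r) * (y - x - 2 * s) := by
      obtain ⟨q, hq⟩ : ∃ q : ℝ, q = (lam + U - κ / r) * (y - x) - Real.pi := ⟨_, rfl⟩
      have hq0 : 0 < q := by rw [hq]; linarith
      refine ⟨min ((y - x) / 4) (q / (4 * (lam + U - κ / r))), ?_, ?_, ?_⟩
      · have : 0 < y - x := by linarith
        positivity
      · have := min_le_left ((y - x) / 4) (q / (4 * (lam + U - κ / r)))
        linarith
      · have h1 := min_le_right ((y - x) / 4) (q / (4 * (lam + U - κ / r)))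
        have h2 : (lam + U - κ / r) * (2 * min ((y - x) / 4) (q / (4 * (lam + U - κ / r)))) ≤
            (lam + U - κ / r) * (2 * (q / (4 * (lam + U - κ / r)))) :=
          mul_le_mul_of_nonneg_left (by linarith) hlowpos.le
        have h3 : (lam + U - κ / r) * (2 * (q / (4 * (lam + U - κ / r)))) = q / 2 := by
          have hne := hlowpos.ne'
          generalize lam + U - κ / r = m at hne ⊢
          field_simp
          ring
        rw [h3] at h2
        rw [mul_sub]
        linarith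
    have hder : ∀ v : ℝ, HasDerivAt (fun v : ℝ => w * P v) (w * deriv P v) v := fun v =>
      ((hP v).hasDerivAt.comp_ofReal).const_mul w
    have hturn := turn' (q := fun v : ℝ => w * P v) (q' := fun v : ℝ => w * deriv P v)
      (a := x + s) (b := y - s) (m := lam + U - κ / r) (by linarith) (fun v _ => hder v)
      (fun v hv h0 => hcons v (by linarith [hv.1]) (by linarith [hv.2]) ((hzero v).2 h0))
      (fun v hv => by
        rw [mul_div_mul_left _ _ hw]
        have h3 : ‖(v : ℂ) - t‖ ≤ 20 * r / k := by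
          rw [← ofReal_sub, norm_real, Real.norm_eq_abs, abs_le]
          constructor <;> linarith [hv.1, hv.2]
        linarith [(abs_le.1 (hlog v h3)).1])
    have h5 : y - s - (x + s) = y - x - 2 * s := by ring
    rw [h5] at hturn
    linarith
  have hfin := gap_calc hε hJ hr0 hlam hlr hκ1 hκ2 hUJ hkbig (sub_pos.2 hxy) hup hlow
  rw [hU] at hfin
  exact hfin

end Pool.Agent.H364.GA
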